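import Pool.Agent.N115.JS.Stm2

/-!
Project JS (helper115), part JS/9: subfields of the function fields of linear spaces are unirational.
Lean proof: helper768 (the algebraic independence is adapted from `Pool.Agent.TH710.SP.Conv`, and
`specialise` is copied from `Pool.Agent.W602.GT.War`).
-/

set_option autoImplicit false

open MvPolynomial Pool.Agent.W602.GT

namespace Pool.Agent.N768.JS

open Pool.Agent.N115.JS

section general

variable {k K : Type} [Field k] [Field K] [Algebra k K]

/-- specialisation of points -/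
theorem specialise [IsAlgClosed k] {σ : Type} [Finite σ] (z : σ → K) (H : MvPolynomial σ k)
    (hH : aeval z H ≠ 0) :
    ∃ z0 : σ → k, aeval z0 H ≠ 0 ∧ ∀ p : MvPolynomial σ k, aeval z p = 0 → aeval z0 p = 0 := by
  set P : Ideal (MvPolynomial σ k) := RingHom.ker (aeval z : MvPolynomial σ k →ₐ[k] K) with hP
  have hprime : P.IsPrime := RingHom.ker_isPrime _
  have h1 := MvPolynomial.IsPrime.vanishingIdeal_zeroLocus (K := k) P
  by_contra hcon
  push Not at hcon
  have h2 : H ∈ vanishingIdeal k (zeroLocus k P) := by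
    intro z0 hz0
    by_contra h3
    obtain ⟨p, hp1, hp2⟩ := hcon z0 h3
    exact hp2 (hz0 p hp1)
  rw [h1] at h2
  exact hH h2

variable {n : ℕ}

theorem val_of_varPts [IsAlgClosed k] {y : Fin (n + 1) → K}
    {i0 : Fin (n + 1)} (hi0 : y i0 ≠ 0) {G : MvPolynomial (Fin (n + 1)) k}
    (h : ∀ x ∈ VarPts k y, val x G = 0) : val y G = 0 := by
  by_contra hne
  obtain ⟨z, hz1, hz2⟩ := specialise y (G * X i0) (by
    rw [map_mul, aeval_X]
    exact mul_ne_zero hne hi0)
  rw [map_mul, aeval_X] at hz1
  refine left_ne_zero_of_mul hz1 (h z ⟨?_, fun H _ hH => hz2 H hH⟩)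
  intro h0
  apply right_ne_zero_of_mul hz1
  rw [h0]
  rfl

/-- the value of a linear form -/
noncomputable def ln {M : Type} [Field M] [Algebra k M] (l : Fin (n + 1) → k)
    (x : Fin (n + 1) → M) : M := ∑ i, algebraMap k M (l i) * x i

/-- the linear form with coefficients `l` -/
noncomputable def lf (l : Fin (n + 1) → k) : MvPolynomial (Fin (n + 1)) k := ∑ j, C (l j) * X j

theorem lf_hom (l : Fin (n + 1) → k) : (lf l).IsHomogeneous 1 := by
  apply IsHomogeneous.sum
  intro j _
  have := (isHomogeneous_C (Fin (n + 1)) (l j)).mul (isHomogeneous_X k j)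
  simpa using this

theorem aeval_lf {M : Type} [Field M] [Algebra k M] (l : Fin (n + 1) → k) (x : Fin (n + 1) → M) :
    aeval x (lf l) = ln l x := by
  unfold lf ln
  rw [map_sum]
  refine Finset.sum_congr rfl fun i _ => ?_
  rw [map_mul, aeval_C, aeval_X]

theorem ln_zero (l : Fin (n + 1) → k) : ln l (0 : Fin (n + 1) → k) = 0 := by
  unfold ln
  simp

/-- the linear space of the points -/
def VV {y : Fin (n + 1) → K} (hl : Pool.Agent.TH710.SP.IsLinear k y) :
    Submodule k (Fin (n + 1) → k) where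
  carrier := {x | x = 0 ∨ x ∈ VarPts k y}
  add_mem' := by
    rintro a b (rfl | ha) (rfl | hb)
    · left; rw [add_zero]
    · right; rw [zero_add]; exact hb
    · right; rw [add_zero]; exact ha
    · by_cases h : a + b = 0
      · exact Or.inl h
      · have h1 := hl a ha b hb 1 1
        rw [one_smul, one_smul] at h1
        exact Or.inr (h1 h)
  zero_mem' := Or.inl rfl
  smul_mem' := by
    rintro c a (rfl | ha)
    · left; rw [smul_zero]
    · by_cases h : c • a = 0
      · exact Or.inl h
      · have h1 := hl a ha a ha c 0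
        rw [zero_smul, add_zero] at h1
        exact Or.inr (h1 h)

theorem ln_VV {y : Fin (n + 1) → K} (hl : Pool.Agent.TH710.SP.IsLinear k y)
    {l : Fin (n + 1) → k} (h : ln l y = 0) {x : Fin (n + 1) → k} (hx : x ∈ VV hl) :
    ln l x = 0 := by
  rcases hx with rfl | hx
  · exact ln_zero l
  · rw [← aeval_lf]
    exact hx.2 _ ⟨1, lf_hom l⟩ (by
      show aeval y (lf l) = 0
      rw [aeval_lf]; exact h)

theorem ln_of_VV [IsAlgClosed k] {y : Fin (n + 1) → K} {i0 : Fin (n + 1)} (hi0 : y i0 ≠ 0)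
    (hl : Pool.Agent.TH710.SP.IsLinear k y) {l : Fin (n + 1) → k}
    (h : ∀ x ∈ VV hl, ln l x = 0) : ln l y = 0 := by
  rw [← aeval_lf]
  refine val_of_varPts hi0 fun x hx => ?_
  show aeval x (lf l) = 0
  rw [aeval_lf]
  exact h x (Or.inr hx)

/-- coordinates on the linear space -/
theorem exists_coord [IsAlgClosed k] {y : Fin (n + 1) → K} {i0 : Fin (n + 1)} (hi0 : y i0 ≠ 0)
    (hl : Pool.Agent.TH710.SP.IsLinear k y) :
    ∃ (r : ℕ) (m v : Fin r → Fin (n + 1) → k), (∀ b, v b ∈ VV hl) ∧
      (∀ b b', ln (m b) (v b') = if b = b' then 1 else 0) ∧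
      (∀ i, y i = ∑ b, algebraMap k K (v b i) * ln (m b) y) ∧ ∀ b, ln (m b) y ≠ 0 := by
  classical
  obtain ⟨r, hr⟩ : ∃ r, r = Module.finrank k (VV hl) := ⟨_, rfl⟩
  let B : Module.Basis (Fin r) k (VV hl) := Module.finBasisOfFinrankEq k (VV hl) hr.symm
  -- extension of the coordinates
  have hext : ∀ b : Fin r, ∃ g : (Fin (n + 1) → k) →ₗ[k] k, g ∘ₗ (VV hl).subtype = B.coord b :=
    fun b => LinearMap.exists_extend (B.coord b)
  choose g hg using hext
  have hgl : ∀ (b : Fin r) (x : Fin (n + 1) → k),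
      ln (fun i => g b (Pi.single i 1)) x = g b x := by
    intro b x
    unfold ln
    have h1 : x = ∑ i, x i • Pi.single i (1 : k) := by
      funext j
      rw [Finset.sum_apply, Finset.sum_eq_single j]
      · simp
      · intro i _ hi
        simp [Pi.single_eq_of_ne (Ne.symm hi)]
      · simp
    conv_rhs => rw [h1, map_sum]
    refine Finset.sum_congr rfl fun i _ => ?_
    rw [map_smul, smul_eq_mul, mul_comm]
    rfl
  have hdual : ∀ b b', ln (fun i => g b (Pi.single i 1)) (B b' : Fin (n + 1) → k) =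
      if b = b' then 1 else 0 := by
    intro b b'
    rw [hgl]
    have h1 := LinearMap.congr_fun (hg b) (B b')
    rw [LinearMap.comp_apply, Module.Basis.coord_apply, Module.Basis.repr_self,
      Finsupp.single_apply] at h1
    rw [Submodule.subtype_apply] at h1
    rw [h1]
    simp only [eq_comm]
  have hrep : ∀ x ∈ VV hl, ∀ i, x i = ∑ b, (B b : Fin (n + 1) → k) i *
      ln (fun i => g b (Pi.single i 1)) x := by
    intro x hx i
    have h1 := congrArg (VV hl).subtype (B.sum_repr ⟨x, hx⟩)
    rw [map_sum] at h1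
    have h2 := congrFun h1 i
    rw [Finset.sum_apply] at h2
    have h3 : ((VV hl).subtype ⟨x, hx⟩) i = x i := rfl
    rw [h3] at h2
    rw [← h2]
    refine Finset.sum_congr rfl fun b _ => ?_
    rw [hgl, map_smul, Pi.smul_apply, smul_eq_mul, mul_comm]
    congr 1
    have h4 := LinearMap.congr_fun (hg b) ⟨x, hx⟩
    rw [LinearMap.comp_apply, Module.Basis.coord_apply] at h4
    exact h4.symm
  refine ⟨r, fun b i => g b (Pi.single i 1), fun b => B b, fun b => (B b).2, hdual, ?_, ?_⟩
  · intro i
    -- the form `e_i - ∑ v_b(i) m_b`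
    obtain ⟨l, hl0⟩ : ∃ l : Fin (n + 1) → k, l = fun j => (if j = i then 1 else 0) -
      ∑ b, (B b : Fin (n + 1) → k) i * g b (Pi.single j 1) := ⟨_, rfl⟩
    have hlv : ∀ {M : Type} [Field M] [Algebra k M] (x : Fin (n + 1) → M), ln l x =
        x i - ∑ b, algebraMap k M ((B b : Fin (n + 1) → k) i) *
          ln (fun i => g b (Pi.single i 1)) x := by
      intro M _ _ x
      unfold ln
      simp only [hl0, map_sub, sub_mul, Finset.sum_sub_distrib]
      congr 1
      · rw [Finset.sum_eq_single i]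
        · simp
        · intro j _ hj
          simp [hj]
        · simp
      · simp only [map_sum, map_mul, Finset.sum_mul, Finset.mul_sum]
        rw [Finset.sum_comm]
        refine Finset.sum_congr rfl fun b _ => Finset.sum_congr rfl fun j _ => ?_
        ring
    have h1 : ln l y = 0 := by
      refine ln_of_VV hi0 hl fun x hx => ?_
      rw [hlv, sub_eq_zero]
      exact hrep x hx i
    rw [hlv, sub_eq_zero] at h1
    exact h1
  · intro b hb
    have h1 := ln_VV hl hb (B b).2
    rw [hdual, if_pos rfl] at h1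
    exact one_ne_zero h1

/-- the coordinate ratios are algebraically independent -/
theorem alg_ind [IsAlgClosed k] [Infinite k] {y : Fin (n + 1) → K}
    (hl : Pool.Agent.TH710.SP.IsLinear k y) {r : ℕ} {m v : Fin r → Fin (n + 1) → k}
    (hv : ∀ b, v b ∈ VV hl) (hdual : ∀ b b', ln (m b) (v b') = if b = b' then 1 else 0)
    (hz0 : ∀ b, ln (m b) y ≠ 0) (b0 : Fin r) :
    AlgebraicIndependent k (fun b : {b : Fin r // b ≠ b0} => ln (m b.1) y / ln (m b0) y) := by
  classical
  rw [algebraicIndependent_iff]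
  intro p hp
  obtain ⟨D, hD⟩ : ∃ D, D = p.totalDegree := ⟨_, rfl⟩
  obtain ⟨G, hGd⟩ : ∃ G : MvPolynomial (Fin (n + 1)) k, G = ∑ α ∈ p.support, C (p.coeff α) *
    (lf (m b0) ^ (D - ∑ b, α b) * ∏ b, lf (m b.1) ^ α b) := ⟨_, rfl⟩
  have hdeg : ∀ α ∈ p.support, ∑ b, α b ≤ D := by
    intro α hα
    have := le_totalDegree hα
    rw [Finsupp.sum_fintype _ _ (fun _ => rfl)] at this
    rw [hD]; exact this
  have hG : IsForm G := by
    refine ⟨D, ?_⟩
    rw [hGd]
    apply IsHomogeneous.sum
    intro α hα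
    have h1 : (∏ b, lf (m b.1) ^ α b : MvPolynomial (Fin (n + 1)) k).IsHomogeneous
        (∑ b : {b : Fin r // b ≠ b0}, α b) := by
      apply IsHomogeneous.prod
      intro b _
      have := (lf_hom (m b.1)).pow (α b)
      rwa [one_mul] at this
    have h2 := (lf_hom (m b0)).pow (D - ∑ b, α b)
    rw [one_mul] at h2
    have h3 := (isHomogeneous_C (Fin (n + 1)) (p.coeff α)).mul (h2.mul h1)
    rwa [zero_add, Nat.sub_add_cancel (hdeg α hα)] at h3
  have hval : ∀ {M : Type} [Field M] [Algebra k M] (x : Fin (n + 1) → M),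
      val x G = ∑ α ∈ p.support, algebraMap k M (p.coeff α) *
        (ln (m b0) x ^ (D - ∑ b, α b) * ∏ b : {b : Fin r // b ≠ b0}, ln (m b.1) x ^ α b) := by
    intro M _ _ x
    show aeval x G = _
    rw [hGd, map_sum]
    refine Finset.sum_congr rfl fun α _ => ?_
    rw [map_mul, map_mul, map_pow, map_prod, aeval_C]
    simp only [map_pow, aeval_lf]
  have hy0 : val y G = 0 := by
    rw [hval]
    have h1 : ∀ α ∈ p.support, algebraMap k K (p.coeff α) *
        (ln (m b0) y ^ (D - ∑ b, α b) * ∏ b : {b : Fin r // b ≠ b0}, ln (m b.1) y ^ α b) =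
        ln (m b0) y ^ D * (algebraMap k K (p.coeff α) *
          ∏ b : {b : Fin r // b ≠ b0}, (ln (m b.1) y / ln (m b0) y) ^ α b) := by
      intro α hα
      simp only [div_pow]
      rw [Finset.prod_div_distrib, Finset.prod_pow_eq_pow_sum]
      have h2 : ln (m b0) y ^ D = ln (m b0) y ^ (D - ∑ b, α b) * ln (m b0) y ^ (∑ b, α b) := by
        rw [← pow_add, Nat.sub_add_cancel (hdeg α hα)]
      rw [h2]
      have h3 := pow_ne_zero (∑ b, α b) (hz0 b0)
      field_simp
    rw [Finset.sum_congr rfl h1, ← Finset.mul_sum]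
    rw [aeval_def, eval₂_eq'] at hp
    rw [hp, mul_zero]
  apply MvPolynomial.funext
  intro s
  rw [map_zero]
  obtain ⟨s', hs'⟩ : ∃ s' : Fin r → k, s' = fun b => if hb : b = b0 then 1 else s ⟨b, hb⟩ :=
    ⟨_, rfl⟩
  obtain ⟨x, hx⟩ : ∃ x : Fin (n + 1) → k, x = ∑ b, s' b • v b := ⟨_, rfl⟩
  have hlx : ∀ b, ln (m b) x = s' b := by
    intro b
    have h1 : ln (m b) x = ∑ b', s' b' * ln (m b) (v b') := by
      rw [hx]
      unfold ln
      simp only [Finset.sum_apply, Pi.smul_apply, smul_eq_mul, Finset.mul_sum]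
      rw [Finset.sum_comm]
      refine Finset.sum_congr rfl fun b' _ => Finset.sum_congr rfl fun i _ => ?_
      ring
    rw [h1, Finset.sum_eq_single b]
    · rw [hdual, if_pos rfl, mul_one]
    · intro b' _ hb'
      rw [hdual, if_neg (Ne.symm hb'), mul_zero]
    · intro h
      exact absurd (Finset.mem_univ _) h
  have h2 : s' b0 = 1 := by rw [hs']; simp only [dif_pos]
  have hxV : x ∈ VV hl := by
    rw [hx]
    exact Submodule.sum_mem _ fun b _ => Submodule.smul_mem _ _ (hv b)
  have hx0 : x ≠ 0 := by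
    intro h0
    have h3 := hlx b0
    rw [h0, ln_zero, h2] at h3
    exact zero_ne_one h3
  have h1 : val x G = 0 := by
    rcases hxV with h0 | h3
    · exact absurd h0 hx0
    · exact h3.2 G hG hy0
  rw [hval] at h1
  rw [eval_eq', ← h1]
  refine Finset.sum_congr rfl fun α _ => ?_
  rw [Algebra.algebraMap_self, RingHom.id_apply, hlx]
  rw [h2, one_pow, one_mul]
  congr 1
  refine Finset.prod_congr rfl fun b _ => ?_
  rw [hlx]
  have h3 : s' b.1 = s b := by rw [hs']; simp only [dif_neg b.2]
  rw [h3]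

/-- function fields of linear spaces embed in the rational function field -/
theorem embed [IsAlgClosed k] [Infinite k] {y : Fin (n + 1) → K} (hy : y ≠ 0)
    (hgen : coords k y = ⊤) {w : ℕ} (hdim : Algebra.trdeg k K = w)
    (hl : Pool.Agent.TH710.SP.IsLinear k y) :
    Nonempty (K →ₐ[k] FractionRing (MvPolynomial (Fin w) k)) := by
  classical
  obtain ⟨i0, hi0⟩ : ∃ i0, y i0 ≠ 0 := by
    by_contra hcon
    push Not at hcon
    exact hy (funext hcon)
  obtain ⟨r, m, v, hv, hdual, hdec, hz0⟩ := exists_coord hi0 hl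
  have hr : 0 < r := by
    rw [Nat.pos_iff_ne_zero]
    rintro rfl
    apply hi0
    rw [hdec i0]
    simp
  obtain ⟨b0, -⟩ : ∃ b0 : Fin r, b0 = ⟨0, hr⟩ := ⟨_, rfl⟩
  have hind := alg_ind hl hv hdual hz0 b0
  obtain ⟨σ', hσ'⟩ : ∃ σ' : {b : Fin r // b ≠ b0} → K,
    σ' = fun b => ln (m b.1) y / ln (m b0) y := ⟨_, rfl⟩
  rw [← hσ'] at hind
  have hzmem : ∀ b, ln (m b) y / ln (m b0) y ∈ IntermediateField.adjoin k (Set.range σ') := by
    intro b
    by_cases hb : b = b0
    · rw [hb, div_self (hz0 b0)]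
      exact one_mem _
    · exact IntermediateField.subset_adjoin k _ ⟨⟨b, hb⟩, by rw [hσ']⟩
  have hymem : ∀ i, y i / ln (m b0) y ∈ IntermediateField.adjoin k (Set.range σ') := by
    intro i
    rw [hdec i, Finset.sum_div]
    refine sum_mem fun b _ => ?_
    rw [mul_div_assoc]
    exact mul_mem (IntermediateField.algebraMap_mem _ _) (hzmem b)
  have htop : IntermediateField.adjoin k (Set.range σ') = ⊤ := by
    rw [eq_top_iff, ← hgen]
    unfold coords
    rw [IntermediateField.adjoin_le_iff]
    rintro _ ⟨i, j, hj, rfl⟩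
    have h1 := div_mem (hymem i) (hymem j)
    rwa [div_div_div_cancel_right₀ (hz0 b0)] at h1
  have hcard : Fintype.card {b : Fin r // b ≠ b0} ≤ Fintype.card (Fin w) := by
    have h1 := hind.cardinalMk_le_trdeg
    rw [hdim, Cardinal.mk_fintype] at h1
    rw [Fintype.card_fin]
    exact_mod_cast h1
  obtain ⟨e⟩ := Function.Embedding.nonempty_of_card_le hcard
  let f1 : K ≃ₐ[k] (⊤ : IntermediateField k K) := IntermediateField.topEquiv.symm
  let f2 : (⊤ : IntermediateField k K) ≃ₐ[k] IntermediateField.adjoin k (Set.range σ') :=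
    IntermediateField.equivOfEq htop.symm
  let f3 : IntermediateField.adjoin k (Set.range σ') ≃ₐ[k]
    FractionRing (MvPolynomial {b : Fin r // b ≠ b0} k) := hind.aevalEquivField.symm
  have hinj : Function.Injective ((IsScalarTower.toAlgHom k (MvPolynomial (Fin w) k)
      (FractionRing (MvPolynomial (Fin w) k))).comp (rename e : MvPolynomial
        {b : Fin r // b ≠ b0} k →ₐ[k] MvPolynomial (Fin w) k)) := by
    rw [AlgHom.coe_comp]
    exact (IsFractionRing.injective (MvPolynomial (Fin w) k) _).comp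
      (rename_injective e e.injective)
  let f4 : FractionRing (MvPolynomial {b : Fin r // b ≠ b0} k) →ₐ[k]
      FractionRing (MvPolynomial (Fin w) k) := IsFractionRing.liftAlgHom hinj
  exact ⟨f4.comp ((f1.trans f2).trans f3).toAlgHom⟩

end general

theorem linUnir : LinUnir := by
  intro K L _ _ _ _ _ _ w N y hy hgen hdim hl
  obtain ⟨φ⟩ := embed hy hgen hdim hl
  exact ⟨φ.comp (IsScalarTower.toAlgHom ℂ L K)⟩

end Pool.Agent.N768.JS
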